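import Pool.Agent.Q39.OP.Res

set_option autoImplicit false

/-!
# The configurations of lines
-/

namespace Pool.Agent.Q39.OP

open MvPolynomial Pool.Agent.Q39.POG

variable {K : Type} [Field K] [CharZero K] {n : ℕ}

/-- the points `(2^i, 4^i)` -/
def cc (K : Type) [Field K] (n : ℕ) : Fin n → K × K := fun i => ((2 : K) ^ (i : ℕ), ((2 : K) ^ (i : ℕ)) ^ 2)

/-- the slope -/
def slope (K : Type) [Field K] {n : ℕ} (i j : Fin n) : K := (2 : K) ^ (i : ℕ) + (2 : K) ^ (j : ℕ)

lemma two_pow_inj {i j : Fin n} (h : (2 : K) ^ (i : ℕ) = 2 ^ (j : ℕ)) : i = j := by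
  have : ((2 ^ (i : ℕ) : ℕ) : K) = ((2 ^ (j : ℕ) : ℕ) : K) := by push_cast; exact h
  exact Fin.ext (Nat.pow_right_injective le_rfl (Nat.cast_injective this))

lemma cc_inj : Function.Injective (cc K n) := fun _ _ h => two_pow_inj (congrArg Prod.fst h)

omit [CharZero K] in
lemma cc_sub (i j : Fin n) : cc K n i - cc K n j =
    (((2 : K) ^ (i : ℕ) - 2 ^ (j : ℕ)), ((2 : K) ^ (i : ℕ) - 2 ^ (j : ℕ)) * slope K i j) := by
  ext
  · simp [cc]
  · simp [cc, slope]; ring

lemma cc_gen : GenPos (cc K n) := by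
  intro k i j hki hkj hij
  rw [cc_sub, cc_sub]
  have e : det2 (((2 : K) ^ (k : ℕ) - 2 ^ (i : ℕ)), ((2 : K) ^ (k : ℕ) - 2 ^ (i : ℕ)) * slope K k i)
      (((2 : K) ^ (k : ℕ) - 2 ^ (j : ℕ)), ((2 : K) ^ (k : ℕ) - 2 ^ (j : ℕ)) * slope K k j) =
      ((2 : K) ^ (k : ℕ) - 2 ^ (i : ℕ)) * ((2 : K) ^ (k : ℕ) - 2 ^ (j : ℕ)) *
        ((2 : K) ^ (j : ℕ) - 2 ^ (i : ℕ)) := by
    simp only [det2, slope]; ring
  rw [e]
  refine mul_ne_zero (mul_ne_zero ?_ ?_) ?_
  · exact sub_ne_zero.2 fun h => hki (two_pow_inj h)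
  · exact sub_ne_zero.2 fun h => hkj (two_pow_inj h)
  · exact sub_ne_zero.2 fun h => hij (two_pow_inj h).symm

lemma slope_inj {i j k l : Fin n} (hij : i ≠ j) (hkl : k ≠ l) (h : slope K i j = slope K k l) :
    (i = k ∧ j = l) ∨ (i = l ∧ j = k) := by
  classical
  have h1 : ((2 ^ (i : ℕ) + 2 ^ (j : ℕ) : ℕ) : K) = ((2 ^ (k : ℕ) + 2 ^ (l : ℕ) : ℕ) : K) := by
    push_cast; exact h
  have h2 := Nat.cast_injective h1
  have hij' : (i : ℕ) ≠ j := fun e => hij (Fin.ext e)
  have hkl' : (k : ℕ) ≠ l := fun e => hkl (Fin.ext e)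
  have h3 : ({(i : ℕ), (j : ℕ)} : Finset ℕ) = {(k : ℕ), (l : ℕ)} := by
    apply Finset.geomSum_injective (n := 2) le_rfl
    simp only
    rw [Finset.sum_pair hij', Finset.sum_pair hkl']
    exact h2
  have hi : (i : ℕ) ∈ ({(k : ℕ), (l : ℕ)} : Finset ℕ) := by rw [← h3]; simp
  have hj : (j : ℕ) ∈ ({(k : ℕ), (l : ℕ)} : Finset ℕ) := by rw [← h3]; simp
  simp only [Finset.mem_insert, Finset.mem_singleton] at hi hj
  rcases hi with hi | hi
  · rcases hj with hj | hj
    · exact absurd (hi.trans hj.symm) hij'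
    · exact Or.inl ⟨Fin.ext hi, Fin.ext hj⟩
  · rcases hj with hj | hj
    · exact Or.inr ⟨Fin.ext hi, Fin.ext hj⟩
    · exact absurd (hi.trans hj.symm) hij'

lemma slope_ne_neg (i j : Fin n) (k : ℕ) : slope K i j ≠ -((k : K) + 1) := by
  intro h
  have h1 : ((2 ^ (i : ℕ) + 2 ^ (j : ℕ) + k + 1 : ℕ) : K) = 0 := by
    push_cast
    rw [slope] at h
    linear_combination h
  rw [Nat.cast_eq_zero] at h1
  have h2 : 2 ^ (i : ℕ) + 2 ^ (j : ℕ) + k + 1 ≠ 0 := by positivity
  exact h2 h1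

section

/-- the pencil of lines with slopes in a finite set -/
noncomputable def vv (F : Finset K) : Fin F.card → K × K := fun k => (1, (F.equivFin.symm k : K))

omit [CharZero K] in
lemma vv_ne (F : Finset K) (k : Fin F.card) : vv F k ≠ 0 := fun h =>
  one_ne_zero (α := K) (congrArg Prod.fst h)

omit [CharZero K] in
lemma vv_det (F : Finset K) (k l : Fin F.card) (hkl : k ≠ l) : det2 (vv F k) (vv F l) ≠ 0 := by
  have e : det2 (vv F k) (vv F l) = (F.equivFin.symm l : K) - (F.equivFin.symm k : K) := by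
    simp [det2, vv]
  rw [e]
  refine sub_ne_zero.2 fun h => hkl ?_
  exact (F.equivFin.symm.injective (Subtype.ext h)).symm

omit [CharZero K] in
lemma lin_smul' (a s : K) : lin (a, a * s) = C a * lin (1, s) := by
  simp only [lin, map_mul, map_one]
  ring

lemma dvd_iff_slope (F : Finset K) {i j : Fin n} (hij : i ≠ j) :
    lin (cc K n i - cc K n j) ∣ gg (vv F) ↔ slope K i j ∈ F := by
  have ha : (2 : K) ^ (i : ℕ) - 2 ^ (j : ℕ) ≠ 0 := sub_ne_zero.2 fun h => hij (two_pow_inj h)
  constructor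
  · intro h
    have hp : Prime (lin (cc K n i - cc K n j)) :=
      lin_prime (sub_ne_zero.2 fun e => hij (cc_inj e))
    obtain ⟨k, _, hk⟩ := (hp.dvd_finsetProd_iff _).1 h
    have h0 := det2_eq_zero_of_dvd hk
    rw [cc_sub] at h0
    simp only [det2, vv] at h0
    have h1 : ((2 : K) ^ (i : ℕ) - 2 ^ (j : ℕ)) * ((F.equivFin.symm k : K) - slope K i j) = 0 := by
      linear_combination h0
    have h2 := sub_eq_zero.1 ((mul_eq_zero.1 h1).resolve_left ha)
    rw [← h2]
    exact (F.equivFin.symm k).2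
  · intro h
    have h1 : lin (vv F (F.equivFin ⟨slope K i j, h⟩)) ∣ gg (vv F) :=
      Finset.dvd_prod_of_mem (fun k => lin (vv F k)) (Finset.mem_univ _)
    have h2 : vv F (F.equivFin ⟨slope K i j, h⟩) = (1, slope K i j) := by
      simp [vv]
    rw [h2] at h1
    rw [cc_sub, lin_smul']
    have hu : IsUnit (C ((2 : K) ^ (i : ℕ) - 2 ^ (j : ℕ)) : MvPolynomial (Fin 3) K) :=
      (IsUnit.mk0 _ ha).map C
    exact (hu.mul_left_dvd).2 h1

end

/-- the intersection point of the lines `i` and `j` is one of the chosen points -/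
def Z (U V : ℕ → Finset (Fin n)) (s : ℕ) (i j : Fin n) : Prop :=
  ∃ a b, a ≤ b ∧ b < s ∧ ((i ∈ U a ∧ j ∈ V b) ∨ (j ∈ U a ∧ i ∈ V b))

lemma Z_symm {U V : ℕ → Finset (Fin n)} {s : ℕ} {i j : Fin n} (h : Z U V s i j) :
    Z U V s j i := by
  obtain ⟨a, b, h1, h2, h3⟩ := h
  exact ⟨a, b, h1, h2, h3.symm⟩

/-- the slopes -/
noncomputable def FF (K : Type) [Field K] (U V : ℕ → Finset (Fin n)) (s : ℕ) : Finset K := by
  classical
  exact ((Finset.univ.filter fun p : Fin n × Fin n => p.1 ≠ p.2 ∧ ¬ Z U V s p.1 p.2).image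
    fun p => slope K p.1 p.2) ∪ (Finset.range (n + 1)).image fun k : ℕ => -((k : K) + 1)

lemma mem_FF {U V : ℕ → Finset (Fin n)} {s : ℕ} {i j : Fin n} (hij : i ≠ j) :
    slope K i j ∈ FF K U V s ↔ ¬ Z U V s i j := by
  classical
  unfold FF
  rw [Finset.mem_union, Finset.mem_image, Finset.mem_image]
  constructor
  · rintro (⟨⟨k, l⟩, h1, h2⟩ | ⟨k, _, h2⟩)
    · rw [Finset.mem_filter] at h1
      obtain ⟨-, hkl, hZ⟩ := h1
      rcases slope_inj hkl hij h2 with ⟨rfl, rfl⟩ | ⟨rfl, rfl⟩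
      · exact hZ
      · exact fun h => hZ (Z_symm h)
    · exact absurd h2.symm (slope_ne_neg i j k)
  · intro h
    exact Or.inl ⟨(i, j), Finset.mem_filter.2 ⟨Finset.mem_univ _, hij, h⟩, rfl⟩

lemma card_FF (U V : ℕ → Finset (Fin n)) (s : ℕ) : n + 1 ≤ (FF K U V s).card := by
  classical
  have h1 : ((Finset.range (n + 1)).image fun k : ℕ => -((k : K) + 1)).card = n + 1 := by
    rw [Finset.card_image_of_injective, Finset.card_range]
    intro a b hab
    simp only [neg_inj, add_left_inj] at hab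
    exact Nat.cast_injective hab
  rw [← h1]
  apply Finset.card_le_card
  unfold FF
  exact Finset.subset_union_right

omit [CharZero K] in
lemma flip_dvd'' {i j : Fin n} {q : MvPolynomial (Fin 3) K}
    (h : lin (cc K n i - cc K n j) ∣ rho (cc K n i) q) :
    lin (cc K n j - cc K n i) ∣ rho (cc K n j) q := by
  have h0 : lin (cc K n j - cc K n i) = - lin (cc K n i - cc K n j) := by
    rw [lin_sub, lin_sub]; ring
  rw [h0, neg_dvd]
  have h1 := lin_dvd_rho_sub (cc K n i) (cc K n j) q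
  have : rho (cc K n j) q = rho (cc K n i) q - (rho (cc K n i) q - rho (cc K n j) q) := by ring
  rw [this]
  exact dvd_sub h h1

lemma adm_FF {U V : ℕ → Finset (Fin n)} {s : ℕ} (hUV : ∀ i j, Disjoint (U i) (V j))
    (q : MvPolynomial (Fin 3) K) :
    Adm (cc K n) (vv (FF K U V s)) q ↔ ∀ i j, i ≤ j → j < s → Van (cc K n) (U i) (V j) q := by
  constructor
  · intro h a b hab hb i hi j hj
    have hij : i ≠ j := fun e => Finset.disjoint_left.1 (hUV a b) hi (e ▸ hj)
    refine h i j hij ?_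
    rw [dvd_iff_slope _ hij, mem_FF hij, not_not]
    exact ⟨a, b, hab, hb, Or.inl ⟨hi, hj⟩⟩
  · intro h i j hij hn
    rw [dvd_iff_slope _ hij, mem_FF hij, not_not] at hn
    obtain ⟨a, b, hab, hb, ⟨hi, hj⟩ | ⟨hj, hi⟩⟩ := hn
    · exact h a b hab hb i hi j hj
    · exact flip_dvd'' (h a b hab hb j hj i hi)

/-! ### classes of given size -/

/-- there are disjoint classes of given sizes -/
lemma exists_classes (s t : ℕ) (ε : Fin s → ℕ) :
    ∃ (n : ℕ) (U V : ℕ → Finset (Fin n)), n = s * t + ∑ j, ε j ∧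
      (∀ i j, i ≠ j → Disjoint (U i) (U j)) ∧ (∀ i j, i ≠ j → Disjoint (V i) (V j)) ∧
      (∀ i j, Disjoint (U i) (V j)) ∧ (∀ j < s, (U j).card = t) ∧
      (∀ j : Fin s, (V j).card = ε j) := by
  classical
  have hcard : Fintype.card ((Fin s × Fin t) ⊕ (Σ j : Fin s, Fin (ε j))) =
      s * t + ∑ j, ε j := by simp
  let e : ((Fin s × Fin t) ⊕ (Σ j : Fin s, Fin (ε j))) ≃ Fin (s * t + ∑ j, ε j) :=
    (Fintype.equivFinOfCardEq hcard)
  refine ⟨_, fun j => if hj : j < s then Finset.univ.image (fun a : Fin t => e (Sum.inl (⟨j, hj⟩, a)))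
      else ∅,
    fun j => if hj : j < s then Finset.univ.image (fun a : Fin (ε ⟨j, hj⟩) =>
      e (Sum.inr ⟨⟨j, hj⟩, a⟩)) else ∅, rfl, ?_, ?_, ?_, ?_, ?_⟩
  · intro i j hij
    by_cases hi : i < s
    · by_cases hj : j < s
      · simp only [dif_pos hi, dif_pos hj]
        rw [Finset.disjoint_left]
        intro x hx hy
        obtain ⟨a, -, ha⟩ := Finset.mem_image.1 hx
        obtain ⟨b, -, hb⟩ := Finset.mem_image.1 hy
        have h1 := e.injective (ha.trans hb.symm)
        rw [Sum.inl.injEq, Prod.mk.injEq] at h1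
        exact hij (congrArg Fin.val h1.1)
      · simp only [dif_neg hj]
        exact Finset.disjoint_empty_right _
    · simp only [dif_neg hi]
      exact Finset.disjoint_empty_left _
  · intro i j hij
    by_cases hi : i < s
    · by_cases hj : j < s
      · simp only [dif_pos hi, dif_pos hj]
        rw [Finset.disjoint_left]
        intro x hx hy
        obtain ⟨a, -, ha⟩ := Finset.mem_image.1 hx
        obtain ⟨b, -, hb⟩ := Finset.mem_image.1 hy
        have h1 := e.injective (ha.trans hb.symm)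
        rw [Sum.inr.injEq] at h1
        have h2 := congrArg (fun x : (Σ j : Fin s, Fin (ε j)) => (x.1 : ℕ)) h1
        exact hij h2
      · simp only [dif_neg hj]
        exact Finset.disjoint_empty_right _
    · simp only [dif_neg hi]
      exact Finset.disjoint_empty_left _
  · intro i j
    by_cases hi : i < s
    · by_cases hj : j < s
      · simp only [dif_pos hi, dif_pos hj]
        rw [Finset.disjoint_left]
        intro x hx hy
        obtain ⟨a, -, ha⟩ := Finset.mem_image.1 hx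
        obtain ⟨b, -, hb⟩ := Finset.mem_image.1 hy
        have h1 := e.injective (ha.trans hb.symm)
        exact absurd h1 Sum.inl_ne_inr
      · simp only [dif_neg hj]
        exact Finset.disjoint_empty_right _
    · simp only [dif_neg hi]
      exact Finset.disjoint_empty_left _
  · intro j hj
    simp only [dif_pos hj]
    rw [Finset.card_image_of_injective, Finset.card_univ, Fintype.card_fin]
    intro a b hab
    have h1 := e.injective hab
    rw [Sum.inl.injEq, Prod.mk.injEq] at h1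
    exact h1.2
  · intro j
    simp only [dif_pos j.2]
    rw [Finset.card_image_of_injective, Finset.card_univ, Fintype.card_fin]
    intro a b hab
    have h1 := e.injective hab
    rw [Sum.inr.injEq, Sigma.mk.injEq] at h1
    exact eq_of_heq h1.2

end Pool.Agent.Q39.OP
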