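import Mathlib

set_option autoImplicit false

/-!
# Definitions: classes of plane curves given by Jacobian syzygies
-/

namespace Pool.Agent.Q39.OP

open MvPolynomial

variable {K : Type} [Field K]

/-- The module of Jacobian syzygies of `f`: the triples `(a, b, c)` with
`a f_x + b f_y + c f_z = 0`. -/
noncomputable def jacSyz (f : MvPolynomial (Fin 3) K) :
    Submodule (MvPolynomial (Fin 3) K) (Fin 3 → MvPolynomial (Fin 3) K) where
  carrier := {θ | ∑ j, θ j * pderiv j f = 0}
  add_mem' := fun {a b} ha hb => by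
    simp only [Set.mem_setOf_eq, Pi.add_apply, add_mul, Finset.sum_add_distrib] at ha hb ⊢
    rw [ha, hb, add_zero]
  zero_mem' := by simp
  smul_mem' := fun r a ha => by
    simp only [Set.mem_setOf_eq, Pi.smul_apply, smul_eq_mul, mul_assoc] at ha ⊢
    rw [← Finset.mul_sum, ha, mul_zero]

/-- The minimal graded free resolution of the Milnor algebra `M(f) = S/(f_x, f_y, f_z)` of a form
`f` of degree `N` is
`0 → ⨁_k S(1 - N - e_k) → ⨁_i S(1 - N - d_i) → S^3(1 - N) → S`:
the module of Jacobian syzygies is generated by homogeneous triples `η_i` of degree `d_i`, and the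
relations between the `η_i` are the unique linear combinations of the relations
`∑ i, R_k i * η_i = 0`, in which the coefficient `R_k i` is zero or homogeneous of degree
`e_k - d_i ≥ 1`. -/
def HasResolution {m r : ℕ} (f : MvPolynomial (Fin 3) K) (d : Fin m → ℕ) (e : Fin r → ℕ) : Prop :=
  ∃ (η : Fin m → Fin 3 → MvPolynomial (Fin 3) K) (R : Fin r → Fin m → MvPolynomial (Fin 3) K),
    (∀ i j, (η i j).IsHomogeneous (d i)) ∧
    Submodule.span (MvPolynomial (Fin 3) K) (Set.range η) = jacSyz f ∧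
    (∀ k i, R k i = 0 ∨ ∃ t : ℕ, 1 ≤ t ∧ d i + t = e k ∧ (R k i).IsHomogeneous t) ∧
    (∀ k, ∑ i, R k i • η i = 0) ∧
    ∀ a : Fin m → MvPolynomial (Fin 3) K, ∑ i, a i • η i = 0 →
      ∃! b : Fin r → MvPolynomial (Fin 3) K, ∀ i, a i = ∑ k, b k * R k i

/-- `f = 0` is a reduced plane curve of some degree `N ≥ 3`, which is not free, of type `t`, and its
ordered partition is `(ε_1, …, ε_s)`: the exponents are `d_1 ≤ … ≤ d_m` with `m = s + 2`, the last
module of the minimal resolution of `M(f)` is `⨁_k S(- c_k)` with `c_1 ≤ … ≤ c_s` and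
`c_k = N + d_{k+2} - 1 + ε_k`, and `t = d_1 + d_2 + 1 - N`. -/
def OfClass (f : MvPolynomial (Fin 3) K) (t : ℕ) {s : ℕ} (ε : Fin s → ℕ) : Prop :=
  ∃ (N : ℕ) (d : Fin (s + 2) → ℕ) (e : Fin s → ℕ), 3 ≤ N ∧ 1 ≤ s ∧ f.IsHomogeneous N ∧
    Squarefree f ∧ Monotone d ∧ Monotone e ∧ HasResolution f d e ∧
    (∀ k : Fin s, e k = d k.succ.succ + ε k) ∧ d 0 + d 1 + 1 = N + t

end Pool.Agent.Q39.OP
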