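import Pool.Agent.Q39.POG.Pencil

set_option autoImplicit false

/-!
# Ideals of some sets of intersection points of lines in general position
-/

namespace Pool.Agent.Q39.OP

open MvPolynomial Pool.Agent.Q39.POG

variable {K : Type} [Field K] {n : ℕ}

/-- the product of the lines with index in `A` -/
noncomputable def PP (c : Fin n → K × K) (A : Finset (Fin n)) : MvPolynomial (Fin 3) K :=
  ∏ i ∈ A, ell (c i)

lemma PP_ne_zero (c : Fin n → K × K) (A : Finset (Fin n)) : PP c A ≠ 0 :=
  Finset.prod_ne_zero_iff.2 fun _ _ => ell_ne_zero _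

lemma PP_homog (c : Fin n → K × K) (A : Finset (Fin n)) : (PP c A).IsHomogeneous A.card := by
  have := IsHomogeneous.prod A (fun k => ell (c k)) (fun _ => 1) (fun k _ => ell_homog (c k))
  simpa [PP] using this

lemma rho_PP (c : Fin n → K × K) (A : Finset (Fin n)) (p : K × K) :
    rho p (PP c A) = ∏ j ∈ A, lin (p - c j) := by
  rw [PP, map_prod]
  exact Finset.prod_congr rfl fun j _ => rho_ell _ _

lemma PP_relPrime {c : Fin n → K × K} (hc : Function.Injective c) {A B : Finset (Fin n)}
    (hAB : Disjoint A B) : IsRelPrime (PP c A) (PP c B) := by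
  apply IsRelPrime.prod_left
  intro i hi
  apply IsRelPrime.prod_right
  intro j hj
  exact ell_relPrime fun h => Finset.disjoint_left.1 hAB hi (hc h ▸ hj)

lemma lin_relPrime_rho {c : Fin n → K × K} (hg : GenPos c) {B : Finset (Fin n)} {i i' : Fin n}
    (hii : i ≠ i') (hi : i ∉ B) (hi' : i' ∉ B) :
    IsRelPrime (lin (c i - c i')) (rho (c i) (PP c B)) := by
  rw [rho_PP]
  apply IsRelPrime.prod_right
  intro j hj
  exact lin_relPrime (hg i i' j hii (fun h => hi (h ▸ hj)) (fun h => hi' (h ▸ hj)))

/-- the condition that `q` vanishes at the intersection points of the lines in `A` and in `B` -/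
def Van (c : Fin n → K × K) (A B : Finset (Fin n)) (q : MvPolynomial (Fin 3) K) : Prop :=
  ∀ i ∈ A, ∀ j ∈ B, lin (c i - c j) ∣ rho (c i) q

lemma Van.add {c : Fin n → K × K} {A B : Finset (Fin n)} {q q' : MvPolynomial (Fin 3) K}
    (h : Van c A B q) (h' : Van c A B q') : Van c A B (q + q') := by
  intro i hi j hj
  rw [map_add]
  exact dvd_add (h i hi j hj) (h' i hi j hj)

lemma Van.mul_left {c : Fin n → K × K} {A B : Finset (Fin n)} {q : MvPolynomial (Fin 3) K}
    (a : MvPolynomial (Fin 3) K) (h : Van c A B q) : Van c A B (a * q) := by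
  intro i hi j hj
  rw [map_mul]
  exact dvd_mul_of_dvd_right (h i hi j hj) _

lemma Van.sum {ι : Type} {c : Fin n → K × K} {A B : Finset (Fin n)} (s : Finset ι)
    {q : ι → MvPolynomial (Fin 3) K} (h : ∀ k ∈ s, Van c A B (q k)) :
    Van c A B (∑ k ∈ s, q k) := by
  intro i hi j hj
  rw [map_sum]
  exact Finset.dvd_sum fun k hk => h k hk i hi j hj

lemma van_right {c : Fin n → K × K} {A B : Finset (Fin n)} : Van c A B (PP c B) := by
  intro i _ j hj
  rw [rho_PP]
  exact Finset.dvd_prod_of_mem _ hj

lemma van_left {c : Fin n → K × K} {A B : Finset (Fin n)} : Van c A B (PP c A) := by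
  intro i hi j _
  rw [rho_PP, Finset.prod_eq_zero hi]
  · exact dvd_zero _
  · rw [sub_self]
    simp [lin]

lemma van_mono {c : Fin n → K × K} {A B A' B' : Finset (Fin n)} (hA : A ⊆ A') (hB : B ⊆ B')
    {q : MvPolynomial (Fin 3) K} (h : Van c A' B' q) : Van c A B q :=
  fun i hi j hj => h i (hA hi) j (hB hj)

/-- multiplication by lines that do not pass through the points -/
lemma van_of_mul {c : Fin n → K × K} (hg : GenPos c)
    {A B D : Finset (Fin n)} (hAB : Disjoint A B) (hA : Disjoint A D) (hB : Disjoint B D)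
    {q : MvPolynomial (Fin 3) K} (h : Van c A B (q * PP c D)) : Van c A B q := by
  intro i hi j hj
  have hij : i ≠ j := fun e => Finset.disjoint_left.1 hAB hi (e ▸ hj)
  have h1 := h i hi j hj
  rw [map_mul] at h1
  have h2 := lin_relPrime_rho hg hij (B := D) (Finset.disjoint_left.1 hA hi)
    (Finset.disjoint_left.1 hB hj)
  exact h2.dvd_of_dvd_mul_right h1

/-- complete intersections -/
theorem van_ci {c : Fin n → K × K} (hc : Function.Injective c) (hg : GenPos c)
    {A B : Finset (Fin n)} (hAB : Disjoint A B) {q : MvPolynomial (Fin 3) K}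
    (h : Van c A B q) : ∃ a b, q = a * PP c B + b * PP c A := by
  classical
  have hA : ∀ i ∈ A, i ∉ B := fun i hi => Finset.disjoint_left.1 hAB hi
  have h1 : ∀ i : Fin n, ∃ f, i ∈ A → rho (c i) q = rho (c i) (PP c B * f) := by
    intro i
    by_cases hi : i ∈ A
    · have hd : (∏ j ∈ B, lin (c i - c j)) ∣ rho (c i) q := by
        apply Finset.prod_dvd_of_isRelPrime
        · intro j hj k hk hjk
          exact lin_relPrime (hg i j k (fun e => hA i hi (e ▸ hj)) (fun e => hA i hi (e ▸ hk)) hjk)
        · intro j hj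
          exact h i hi j hj
      obtain ⟨f, hf⟩ := hd
      refine ⟨f, fun _ => ?_⟩
      have h2 := congrArg (rho (c i)) hf
      rw [rho_rho, map_mul, ← rho_PP, rho_rho] at h2
      rw [h2, map_mul]
    · exact ⟨0, fun h => absurd h hi⟩
  choose f hf using h1
  obtain ⟨a, ha⟩ := interp A c (fun k _ i _ j _ => hg k i j) f (by
    intro i hi j hj hij
    have e1 : lin (c i - c j) ∣ rho (c i) (PP c B) * rho (c i) (f i - f j) := by
      have d1 := lin_dvd_rho_sub (c i) (c j) q
      have d2 := lin_dvd_rho_sub (c i) (c j) (PP c B * f j)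
      rw [hf i hi, hf j hj] at d1
      have : rho (c i) (PP c B) * rho (c i) (f i - f j) =
          (rho (c i) (PP c B * f i) - rho (c j) (PP c B * f j)) -
          (rho (c i) (PP c B * f j) - rho (c j) (PP c B * f j)) := by
        simp only [map_mul, map_sub]
        ring
      rw [this]
      exact dvd_sub d1 d2
    exact (lin_relPrime_rho hg hij (hA i hi) (hA j hj)).dvd_of_dvd_mul_left e1)
  have hd : PP c A ∣ q - a * PP c B := by
    apply prod_ell_dvd A c hc.injOn
    intro i hi
    rw [map_sub, hf i hi, map_mul, map_mul, ha i hi]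
    ring
  obtain ⟨k, hk⟩ := hd
  exact ⟨a, k, by linear_combination hk⟩

/-! ### chains -/

/-- `(∏_{j < i} P j) (∏_{i ≤ j < s} Q j)` -/
noncomputable def qq (P Q : ℕ → MvPolynomial (Fin 3) K) (s i : ℕ) : MvPolynomial (Fin 3) K :=
  (∏ j ∈ Finset.range i, P j) * ∏ j ∈ Finset.Ico i s, Q j

lemma qq_succ {P Q : ℕ → MvPolynomial (Fin 3) K} {s i : ℕ} (h : i ≤ s) :
    qq P Q (s + 1) i = qq P Q s i * Q s := by
  rw [qq, qq, Finset.prod_Ico_succ_top h]
  ring

lemma qq_top (P Q : ℕ → MvPolynomial (Fin 3) K) (s : ℕ) :
    qq P Q s s = ∏ j ∈ Finset.range s, P j := by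
  rw [qq, Finset.Ico_self, Finset.prod_empty, mul_one]

/-- the basic relation -/
lemma qq_rel (P Q : ℕ → MvPolynomial (Fin 3) K) {s j : ℕ} (h : j < s) :
    P j * qq P Q s j = Q j * qq P Q s (j + 1) := by
  rw [qq, qq, Finset.prod_range_succ, Finset.prod_eq_prod_Ico_succ_bot h]
  ring

/-- the relations -/
theorem qq_relations (P Q : ℕ → MvPolynomial (Fin 3) K) (s : ℕ)
    (hQ : ∀ j < s, Q j ≠ 0) (hPQ : ∀ i ≤ s, ∀ j < s, i ≤ j → IsRelPrime (Q j) (P i))
    (a : ℕ → MvPolynomial (Fin 3) K)
    (h : ∑ i ∈ Finset.range (s + 1), a i * qq P Q s i = 0) :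
    ∃ b : ℕ → MvPolynomial (Fin 3) K, ∀ i ≤ s,
      a i = (if i < s then b i * P i else 0) - (if 0 < i then b (i - 1) * Q (i - 1) else 0) := by
  induction s generalizing a with
  | zero =>
    refine ⟨0, fun i hi => ?_⟩
    obtain rfl : i = 0 := by omega
    rw [Finset.sum_range_one, qq_top, Finset.range_zero, Finset.prod_empty, mul_one] at h
    simp [h]
  | succ s ih =>
    have h1 : (∑ i ∈ Finset.range (s + 1), a i * qq P Q s i) * Q s +
        a (s + 1) * ∏ j ∈ Finset.range (s + 1), P j = 0 := by
      rw [Finset.sum_range_succ, qq_top] at h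
      rw [Finset.sum_mul, ← h]
      congr 1
      refine Finset.sum_congr rfl fun i hi => ?_
      rw [qq_succ (Nat.lt_succ_iff.1 (Finset.mem_range.1 hi))]
      ring
    have hrp : IsRelPrime (Q s) (∏ j ∈ Finset.range (s + 1), P j) := by
      apply IsRelPrime.prod_right
      intro j hj
      have hj' := Finset.mem_range.1 hj
      exact hPQ j (by omega) s (by omega) (by omega)
    obtain ⟨b', hb'⟩ : Q s ∣ a (s + 1) := by
      apply hrp.dvd_of_dvd_mul_right
      exact ⟨-∑ i ∈ Finset.range (s + 1), a i * qq P Q s i, by linear_combination h1⟩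
    set a' : ℕ → MvPolynomial (Fin 3) K := fun i => if i = s then a i + b' * P s else a i with ha'
    have h2 : ∑ i ∈ Finset.range (s + 1), a' i * qq P Q s i = 0 := by
      have h3 : (∑ i ∈ Finset.range (s + 1), a i * qq P Q s i) +
          b' * ∏ j ∈ Finset.range (s + 1), P j = 0 := by
        have : Q s * ((∑ i ∈ Finset.range (s + 1), a i * qq P Q s i) +
          b' * ∏ j ∈ Finset.range (s + 1), P j) = 0 := by
          rw [hb'] at h1
          linear_combination h1
        exact (mul_eq_zero.1 this).resolve_left (hQ s (by omega))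
      rw [Finset.sum_range_succ] at h3 ⊢
      have e1 : ∑ i ∈ Finset.range s, a' i * qq P Q s i =
          ∑ i ∈ Finset.range s, a i * qq P Q s i := by
        refine Finset.sum_congr rfl fun i hi => ?_
        have : i ≠ s := (Finset.mem_range.1 hi).ne
        simp only [ha', if_neg this]
      have e2 : a' s = a s + b' * P s := by simp [ha']
      rw [e1, e2, qq_top]
      rw [qq_top, Finset.prod_range_succ] at h3
      linear_combination h3
    obtain ⟨b, hb⟩ := ih (fun j hj => hQ j (by omega))
      (fun i hi j hj hij => hPQ i (by omega) j (by omega) hij) a' h2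
    refine ⟨fun i => if i = s then -b' else b i, fun i hi => ?_⟩
    rcases Nat.lt_or_ge i s with hlt | hge
    · have e1 := hb i hlt.le
      have hne : i ≠ s := hlt.ne
      have hne' : ¬ (i - 1 = s) := by omega
      simp only [ha', if_neg hne, if_pos hlt] at e1
      simp only [if_neg hne, if_neg hne', if_pos (show i < s + 1 by omega)]
      exact e1
    · rcases Nat.eq_or_lt_of_le hge with heq | hgt
      · subst heq
        have e1 := hb s le_rfl
        simp only [ha', if_true, lt_irrefl, if_false] at e1
        simp only [if_true, if_pos (Nat.lt_succ_self s)]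
        by_cases h0 : 0 < s
        · have hne' : ¬ (s - 1 = s) := by omega
          simp only [if_pos h0, if_neg hne'] at e1 ⊢
          linear_combination e1
        · simp only [if_neg h0] at e1 ⊢
          linear_combination e1
      · obtain rfl : i = s + 1 := by omega
        simp only [lt_irrefl, if_false, Nat.succ_pos, if_true, Nat.add_sub_cancel]
        rw [hb']
        ring

/-- the ideal of the points -/
theorem mem_iff {c : Fin n → K × K} (hc : Function.Injective c) (hg : GenPos c)
    (U V : ℕ → Finset (Fin n)) (s : ℕ)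
    (hUU : ∀ i j, i ≠ j → Disjoint (U i) (U j)) (hVV : ∀ i j, i ≠ j → Disjoint (V i) (V j))
    (hUV : ∀ i j, Disjoint (U i) (V j)) (q : MvPolynomial (Fin 3) K) :
    (∀ i j, i ≤ j → j < s → Van c (U i) (V j) q) ↔
      ∃ a : ℕ → MvPolynomial (Fin 3) K,
        q = ∑ i ∈ Finset.range (s + 1), a i * qq (fun j => PP c (U j)) (fun j => PP c (V j)) s i := by
  classical
  constructor
  · intro h
    induction s generalizing q with
    | zero =>
      refine ⟨fun _ => q, ?_⟩
      rw [Finset.sum_range_one, qq_top, Finset.range_zero, Finset.prod_empty, mul_one]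
    | succ s ih =>
      -- the union of all the `U i`
      set UU : Finset (Fin n) := (Finset.range (s + 1)).biUnion U with hUUdef
      have hPU : PP c UU = ∏ j ∈ Finset.range (s + 1), PP c (U j) := by
        rw [PP, hUUdef, Finset.prod_biUnion]
        · rfl
        · intro i _ j _ hij
          exact hUU i j hij
      have hvan : Van c UU (V s) q := by
        intro i hi j hj
        rw [hUUdef, Finset.mem_biUnion] at hi
        obtain ⟨k, hk, hik⟩ := hi
        exact h k s (by have := Finset.mem_range.1 hk; omega) (by omega) i hik j hj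
      have hdis : Disjoint UU (V s) := by
        rw [hUUdef, Finset.disjoint_biUnion_left]
        exact fun i _ => hUV i s
      obtain ⟨α, β, hαβ⟩ := van_ci hc hg hdis hvan
      have hα : ∀ i j, i ≤ j → j < s → Van c (U i) (V j) α := by
        intro i j hij hj
        apply van_of_mul hg (hUV i j) (D := V s) (hUV i s) (hVV j s hj.ne)
        have e1 : α * PP c (V s) = q + (-β) * PP c UU := by rw [hαβ]; ring
        rw [e1]
        refine (h i j hij (by omega)).add (Van.mul_left _ ?_)
        refine van_mono (A' := UU) ?_ (Finset.Subset.refl _) van_left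
        rw [hUUdef]
        exact Finset.subset_biUnion_of_mem U (Finset.mem_range.2 (by omega))
      obtain ⟨a, ha⟩ := ih α hα
      refine ⟨fun i => if i = s + 1 then β else a i, ?_⟩
      rw [Finset.sum_range_succ, qq_top]
      simp only [↓reduceIte]
      rw [← hPU, hαβ, ha, Finset.sum_mul]
      congr 1
      refine Finset.sum_congr rfl fun i hi => ?_
      have hi' := Finset.mem_range.1 hi
      have : i ≠ s + 1 := by omega
      rw [if_neg this, qq_succ (by omega)]
      ring
  · rintro ⟨a, rfl⟩ i j hij hj
    apply Van.sum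
    intro k hk
    have hk' := Finset.mem_range.1 hk
    apply Van.mul_left
    by_cases hik : i < k
    · have hd : PP c (U i) ∣ qq (fun j => PP c (U j)) (fun j => PP c (V j)) s k := by
        rw [qq]
        exact Dvd.dvd.mul_right (Finset.dvd_prod_of_mem (fun j => PP c (U j))
          (Finset.mem_range.2 hik)) _
      obtain ⟨x, hx⟩ := hd
      rw [hx, mul_comm]
      exact Van.mul_left _ van_left
    · have hd : PP c (V j) ∣ qq (fun j => PP c (U j)) (fun j => PP c (V j)) s k := by
        rw [qq]
        exact Dvd.dvd.mul_left (Finset.dvd_prod_of_mem (fun j => PP c (V j))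
          (Finset.mem_Ico.2 ⟨by omega, hj⟩)) _
      obtain ⟨x, hx⟩ := hd
      rw [hx, mul_comm]
      exact Van.mul_left _ van_right

end Pool.Agent.Q39.OP
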