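import Pool.Agent.Q39.OP.Defs
import Pool.Agent.Q39.OP.Ideal
import Pool.Agent.Q39.POG.CI

set_option autoImplicit false

/-!
# Logarithmic vector fields and Jacobian syzygies
-/

namespace Pool.Agent.Q39.OP

open MvPolynomial Pool.Agent.Q39.POG

variable {K : Type} [Field K] {n m : ℕ}

/-- the derivation with given values on the variables -/
noncomputable def der (θ : Fin 3 → MvPolynomial (Fin 3) K) :
    Derivation K (MvPolynomial (Fin 3) K) (MvPolynomial (Fin 3) K) := mkDerivation K θ

lemma der_X (θ : Fin 3 → MvPolynomial (Fin 3) K) (j : Fin 3) : der θ (X j) = θ j := by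
  simp [der]

lemma der_eq (θ : Fin 3 → MvPolynomial (Fin 3) K) (f : MvPolynomial (Fin 3) K) :
    der θ f = ∑ j, θ j * pderiv j f := by
  have h : der θ = ∑ j, θ j • (pderiv j : Derivation K (MvPolynomial (Fin 3) K) _) := by
    apply MvPolynomial.derivation_ext
    intro i
    rw [der_X, Fin.sum_univ_three]
    simp only [Derivation.add_apply, Derivation.smul_apply, smul_eq_mul]
    fin_cases i <;> simp [pderiv_X]
  rw [h, Fin.sum_univ_three, Fin.sum_univ_three]
  simp only [Derivation.add_apply, Derivation.smul_apply, smul_eq_mul]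

lemma der_lin (θ : Fin 3 → MvPolynomial (Fin 3) K) (p : K × K) :
    der θ (lin p) = C p.1 * θ 0 + C p.2 * θ 1 := by
  have h0 : ∀ a : K, der θ (C a) = 0 := fun a => by simp [der]
  rw [lin, map_add, Derivation.leibniz, Derivation.leibniz, der_X, der_X, h0, h0]
  simp

lemma der_ell (θ : Fin 3 → MvPolynomial (Fin 3) K) (p : K × K) :
    der θ (ell p) = θ 2 - C p.1 * θ 0 - C p.2 * θ 1 := by
  rw [ell, map_sub, der_lin, der_X]
  ring

/-- the defining forms of all lines -/
noncomputable def fam (c : Fin n → K × K) (v : Fin m → K × K) :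
    Fin m ⊕ Fin n → MvPolynomial (Fin 3) K :=
  Sum.elim (fun k => lin (v k)) (fun i => ell (c i))

lemma fam_prod (c : Fin n → K × K) (v : Fin m → K × K) : ∏ i, fam c v i = gg v * hh c := by
  rw [Fintype.prod_sum_type]
  rfl

lemma fam_isLog (c : Fin n → K × K) (v : Fin m → K × K) (θ : Fin 3 → MvPolynomial (Fin 3) K) :
    IsLog c v θ ↔ ∀ i, fam c v i ∣ der θ (fam c v i) := by
  constructor
  · rintro ⟨h1, h2⟩ (k | i)
    · change lin (v k) ∣ der θ (lin (v k))
      rw [der_lin]; exact h2 k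
    · change ell (c i) ∣ der θ (ell (c i))
      rw [der_ell]; exact h1 i
  · intro h
    refine ⟨fun i => ?_, fun k => ?_⟩
    · rw [← der_ell]; exact h (Sum.inr i)
    · rw [← der_lin]; exact h (Sum.inl k)

lemma lin_ell_relPrime {v : K × K} (hv : v ≠ 0) (p : K × K) : IsRelPrime (lin v) (ell p) := by
  rw [(lin_prime hv).irreducible.isRelPrime_iff_not_dvd]
  rintro ⟨G, hG⟩
  have := congrArg (eval ![0, 0, 1]) hG
  simp [lin, ell] at this

section

variable {c : Fin n → K × K} {v : Fin m → K × K}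

lemma fam_prime (hv : ∀ k, v k ≠ 0) (i : Fin m ⊕ Fin n) : Prime (fam c v i) := by
  rcases i with k | i
  · exact lin_prime (hv k)
  · exact ell_prime _

lemma fam_relPrime (hc : Function.Injective c) (hv : ∀ k, v k ≠ 0)
    (hv2 : ∀ k l, k ≠ l → det2 (v k) (v l) ≠ 0) {i j : Fin m ⊕ Fin n} (hij : i ≠ j) :
    IsRelPrime (fam c v i) (fam c v j) := by
  rcases i with k | i
  · rcases j with l | j
    · exact lin_relPrime (hv2 k l fun h => hij (by rw [h]))
    · exact lin_ell_relPrime (hv k) _
  · rcases j with l | j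
    · exact (lin_ell_relPrime (hv l) _).symm
    · exact ell_relPrime fun h => hij (by rw [hc h])

lemma f_squarefree (hc : Function.Injective c) (hv : ∀ k, v k ≠ 0)
    (hv2 : ∀ k l, k ≠ l → det2 (v k) (v l) ≠ 0) : Squarefree (gg v * hh c) := by
  rw [← fam_prod]
  apply Finset.squarefree_prod_of_pairwise_isCoprime
  · intro i _ j _ hij
    exact fam_relPrime hc hv hv2 hij
  · intro i _
    exact (fam_prime hv i).squarefree

/-- logarithmic vector fields multiply `f` with a cofactor -/
lemma exists_cofactor (θ : Fin 3 → MvPolynomial (Fin 3) K) (h : IsLog c v θ) :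
    ∃ κ, der θ (gg v * hh c) = κ * (gg v * hh c) := by
  classical
  rw [fam_isLog] at h
  rw [← fam_prod]
  have key : ∀ s : Finset (Fin m ⊕ Fin n), (∏ i ∈ s, fam c v i) ∣ der θ (∏ i ∈ s, fam c v i) := by
    intro s
    induction s using Finset.induction_on with
    | empty =>
      rw [Finset.prod_empty]
      exact one_dvd _
    | insert i s hi ih =>
      rw [Finset.prod_insert hi, Derivation.leibniz, smul_eq_mul, smul_eq_mul]
      refine dvd_add (mul_dvd_mul_left _ ih) ?_
      rw [mul_comm (fam c v i)]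
      exact mul_dvd_mul_left _ (h i)
  obtain ⟨κ, hκ⟩ := key Finset.univ
  exact ⟨κ, by rw [hκ]; ring⟩

/-- Jacobian syzygies are logarithmic -/
lemma isLog_of_zero (hc : Function.Injective c) (hv : ∀ k, v k ≠ 0)
    (hv2 : ∀ k l, k ≠ l → det2 (v k) (v l) ≠ 0) {θ : Fin 3 → MvPolynomial (Fin 3) K}
    (h : der θ (gg v * hh c) = 0) : IsLog c v θ := by
  classical
  rw [fam_isLog]
  intro i
  rw [← fam_prod, ← Finset.mul_prod_erase _ _ (Finset.mem_univ i), Derivation.leibniz,
    smul_eq_mul, smul_eq_mul] at h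
  have hr : IsRelPrime (fam c v i) (∏ j ∈ Finset.univ.erase i, fam c v j) := by
    apply IsRelPrime.prod_right
    intro j hj
    exact fam_relPrime hc hv hv2 (Finset.ne_of_mem_erase hj).symm
  apply hr.dvd_of_dvd_mul_left
  exact ⟨-der θ (∏ j ∈ Finset.univ.erase i, fam c v j), by linear_combination h⟩

lemma f_ne_zero (hv : ∀ k, v k ≠ 0) : gg v * hh c ≠ 0 :=
  mul_ne_zero (gg_ne_zero hv) (hh_ne_zero c)

lemma f_homog (c : Fin n → K × K) (v : Fin m → K × K) : (gg v * hh c).IsHomogeneous (m + n) :=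
  (gg_homog v).mul (hh_homog c)

lemma der_homog {θ : Fin 3 → MvPolynomial (Fin 3) K} {k : ℕ} (hθ : ∀ j, (θ j).IsHomogeneous k)
    {f : MvPolynomial (Fin 3) K} {N : ℕ} (hf : f.IsHomogeneous N) :
    (der θ f).IsHomogeneous (k + (N - 1)) := by
  rw [der_eq]
  exact IsHomogeneous.sum _ _ _ fun j _ => (hθ j).mul hf.pderiv

lemma cofactor_homog (hv : ∀ k, v k ≠ 0) {θ : Fin 3 → MvPolynomial (Fin 3) K} {k : ℕ}
    (hθ : ∀ j, (θ j).IsHomogeneous (k + 1)) (hm : 0 < m) {κ : MvPolynomial (Fin 3) K}
    (h : der θ (gg v * hh c) = κ * (gg v * hh c)) : κ.IsHomogeneous k := by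
  refine homog_cofactor (f_homog c v) (f_ne_zero hv) ?_ h
  have := der_homog hθ (f_homog c v)
  have e : k + 1 + (m + n - 1) = k + (m + n) := by omega
  rwa [e] at this

lemma der_vE (f : MvPolynomial (Fin 3) K) {N : ℕ} (hf : f.IsHomogeneous N) :
    der vE f = (N : MvPolynomial (Fin 3) K) * f := by
  rw [der_eq]
  have := hf.sum_X_mul_pderiv
  rw [nsmul_eq_mul] at this
  rw [← this]
  refine Finset.sum_congr rfl fun j _ => ?_
  congr 1
  fin_cases j <;> rfl

lemma der_add (θ η : Fin 3 → MvPolynomial (Fin 3) K) (f : MvPolynomial (Fin 3) K) :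
    der (θ + η) f = der θ f + der η f := by
  simp only [der_eq, Pi.add_apply, add_mul, Finset.sum_add_distrib]

lemma der_smul (a : MvPolynomial (Fin 3) K) (θ : Fin 3 → MvPolynomial (Fin 3) K)
    (f : MvPolynomial (Fin 3) K) : der (a • θ) f = a * der θ f := by
  simp only [der_eq, Pi.smul_apply, smul_eq_mul, mul_assoc, ← Finset.mul_sum]

lemma der_sum {ι : Type} (s : Finset ι) (θ : ι → Fin 3 → MvPolynomial (Fin 3) K)
    (f : MvPolynomial (Fin 3) K) : der (∑ i ∈ s, θ i) f = ∑ i ∈ s, der (θ i) f := by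
  classical
  induction s using Finset.induction_on with
  | empty =>
    rw [Finset.sum_empty, Finset.sum_empty, der_eq]
    simp
  | insert i s hi ih => rw [Finset.sum_insert hi, Finset.sum_insert hi, der_add, ih]

end

end Pool.Agent.Q39.OP
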