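import Pool.Agent.Q39.OP.Config

set_option autoImplicit false

/-!
# Line arrangements of all classes
-/

namespace Pool.Agent.Q39.OP

open MvPolynomial Pool.Agent.Q39.POG

variable {K : Type} [Field K] [CharZero K]

/-- the degrees of the generators of the ideal -/
def gd {s : ℕ} (t : ℕ) (ε : Fin s → ℕ) (k : ℕ) : ℕ :=
  k * t + ∑ j ∈ Finset.Ico k s, (if h : j < s then ε ⟨j, h⟩ else 0)

lemma gd_succ {s : ℕ} (t : ℕ) (ε : Fin s → ℕ) {k : ℕ} (hk : k < s) :
    gd t ε (k + 1) + ε ⟨k, hk⟩ = t + gd t ε k := by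
  unfold gd
  rw [Finset.sum_eq_sum_Ico_succ_bot hk, dif_pos hk]
  ring

lemma gd_zero {s : ℕ} (t : ℕ) (ε : Fin s → ℕ) : gd t ε 0 = ∑ j, ε j := by
  unfold gd
  rw [zero_mul, zero_add, ← Finset.range_eq_Ico, Finset.sum_range]
  exact Finset.sum_congr rfl fun j _ => by rw [dif_pos j.2]

omit [CharZero K] in
lemma qq_homog {n : ℕ} (c : Fin n → K × K) {U V : ℕ → Finset (Fin n)} {s t : ℕ} {ε : Fin s → ℕ}
    (hU : ∀ j < s, (U j).card = t) (hV : ∀ j : Fin s, (V j).card = ε j) {k : ℕ} (hk : k ≤ s) :
    (qq (fun j => PP c (U j)) (fun j => PP c (V j)) s k).IsHomogeneous (gd t ε k) := by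
  rw [qq, gd]
  refine IsHomogeneous.mul ?_ ?_
  · have := IsHomogeneous.prod (Finset.range k) (fun j => PP c (U j)) (fun _ => t)
      (fun j hj => by
        rw [← hU j (by have := Finset.mem_range.1 hj; omega)]
        exact PP_homog c _)
    rwa [Finset.sum_const, Finset.card_range, smul_eq_mul] at this
  · exact IsHomogeneous.prod (Finset.Ico k s) (fun j => PP c (V j)) _
      (fun j hj => by
        have hj' := (Finset.mem_Ico.1 hj).2
        rw [dif_pos hj', ← hV ⟨j, hj'⟩]
        exact PP_homog c _)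

theorem main (s : ℕ) (ε : Fin s → ℕ) (hs0 : 1 ≤ s) (hε : ∀ j, 1 ≤ ε j) :
    ∃ (N : ℕ) (A : Fin N → Fin 3 → K),
      OfClass (∏ i, ∑ j, C (A i j) * X j) (∑ j, ε j) ε := by
  classical
  set t : ℕ := ∑ j, ε j with ht
  have ht1 : 1 ≤ t := (hε ⟨0, hs0⟩).trans
    (Finset.single_le_sum (fun _ _ => Nat.zero_le _) (Finset.mem_univ _))
  have htε : ∀ j, ε j ≤ t := fun j =>
    Finset.single_le_sum (fun _ _ => Nat.zero_le _) (Finset.mem_univ _)
  obtain ⟨n, U, V, hn, hUU, hVV, hUV, hU, hV⟩ := exists_classes s t ε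
  have hn1 : 2 ≤ n := by
    have : 1 * 1 ≤ s * t := Nat.mul_le_mul hs0 ht1
    omega
  have hmn : n + 1 ≤ (FF K U V s).card := card_FF U V s
  have hadm := fun q => adm_FF (K := K) (s := s) hUV q
  generalize FF K U V s = F at hmn hadm
  have hvne := vv_ne F
  have hvdet := vv_det F
  generalize vv F = v at hadm hvne hvdet
  generalize F.card = m at hmn v
  have hcinj : Function.Injective (cc K n) := cc_inj
  have hcgen : GenPos (cc K n) := cc_gen
  generalize cc K n = c at hadm hcinj hcgen
  obtain ⟨p0, p1, hsys⟩ := exists_sys (m := m) (by omega) v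
  -- the solutions
  have hq : ∀ k ≤ s, Adm c v (qq (fun j => PP c (U j)) (fun j => PP c (V j)) s k) := by
    intro k hk
    rw [hadm, mem_iff hcinj hcgen U V s hUU hVV hUV]
    refine ⟨fun i => if i = k then 1 else 0, ?_⟩
    simp only [ite_mul, one_mul, zero_mul]
    rw [Finset.sum_ite_eq', if_pos (Finset.mem_range.2 (by omega))]
  have hw : ∀ k, ∃ w : MvPolynomial (Fin 3) K, k ≤ s → w.IsHomogeneous (gd t ε k + (m - 1)) ∧
      ∀ i, rho (c i) w = rho (c i) (qq (fun j => PP c (U j)) (fun j => PP c (V j)) s k *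
        phi p0 p1 (c i)) := by
    intro k
    by_cases hk : k ≤ s
    · obtain ⟨w, h1, h2⟩ := exists_homog_solution c hcinj hcgen hsys (hq k hk)
        (qq_homog c hU hV hk)
      exact ⟨w, fun _ => ⟨h1, h2⟩⟩
    · exact ⟨0, fun h => absurd h hk⟩
  choose w hw using hw
  have he : ∀ j, ∃ e : MvPolynomial (Fin 3) K, j < s →
      PP c (U j) * w j - PP c (V j) * w (j + 1) = e * hh c := by
    intro j
    by_cases hj : j < s
    · have : hh c ∣ PP c (U j) * w j - PP c (V j) * w (j + 1) := by
        apply prod_ell_dvd Finset.univ c hcinj.injOn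
        intro i _
        have hr := congrArg (rho (c i)) (qq_rel (fun j => PP c (U j)) (fun j => PP c (V j)) hj)
        simp only [map_mul] at hr
        rw [map_sub, map_mul, map_mul, (hw j hj.le).2 i, (hw (j + 1) hj).2 i, map_mul, map_mul]
        linear_combination rho (c i) (phi p0 p1 (c i)) * hr
      obtain ⟨e, he⟩ := this
      exact ⟨e, fun _ => by rw [he]; ring⟩
    · exact ⟨0, fun h => absurd h hj⟩
  choose e' he using he
  have D : Data c v U V s p0 p1 w e' :=
    ⟨hcinj, hcgen, hvne, hvdet, by omega, hsys, hUU, hVV, hUV, hadm,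
      fun k hk => (hw k hk).2, he⟩
  -- the degrees
  set d : ℕ → ℕ := fun k => if k = 0 then n - 1 else gd t ε (k - 1) + (m - 2) with hd
  set ee : ℕ → ℕ := fun j => t + gd t ε j + (m - 1) with hee
  have hd1 : ∀ k, d (k + 1) = gd t ε k + (m - 2) := fun k => by simp [hd]
  have hres := resolution D d ee (by
    intro k hk j
    rcases k with _ | k
    · have e1 : d 0 + 1 = n := by simp only [hd, if_true]; omega
      rw [e1]
      fin_cases j
      · exact isHomogeneous_zero _ _ _
      · exact isHomogeneous_zero _ _ _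
      · exact hh_homog c
    · have e1 : d (k + 1) + 1 = gd t ε k + (m - 1) := by rw [hd1]; omega
      rw [e1]
      fin_cases j
      · exact (qq_homog c hU hV (by omega)).mul hsys.h0
      · exact (qq_homog c hU hV (by omega)).mul hsys.h1
      · exact (hw k (by omega)).1) (by
    intro j hj k hk
    rcases k with _ | k
    · right
      rw [RR_zero]
      refine ⟨t + gd t ε j + (m - 1) - n, by omega, ?_, ?_⟩
      · simp only [hd, hee, if_true]; omega
      · refine IsHomogeneous.neg ?_
        refine homog_cofactor (hh_homog c) (hh_ne_zero c) ?_ (he j hj)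
        have e1 : t + gd t ε j + (m - 1) - n + n = t + (gd t ε j + (m - 1)) := by omega
        have e2 : t + (gd t ε j + (m - 1)) = ε ⟨j, hj⟩ + (gd t ε (j + 1) + (m - 1)) := by
          have := gd_succ t ε hj
          omega
        rw [e1]
        refine IsHomogeneous.sub ?_ ?_
        · have := (PP_homog c (U j)).mul (hw j hj.le).1
          rwa [hU j hj] at this
        · rw [e2]
          have := (PP_homog c (V j)).mul (hw (j + 1) hj).1
          have e3 : (V j).card = ε ⟨j, hj⟩ := hV ⟨j, hj⟩
          rwa [e3] at this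
    · rw [RR_succ]
      by_cases h1 : j = k
      · subst h1
        right
        rw [if_pos rfl, if_neg (by omega), add_zero]
        refine ⟨t, ht1, ?_, ?_⟩
        · rw [hd1]; simp only [hee]; omega
        · have := PP_homog c (U j)
          rwa [hU j hj] at this
      · rw [if_neg h1, zero_add]
        by_cases h2 : k = j + 1
        · subst h2
          right
          rw [if_pos rfl]
          refine ⟨ε ⟨j, hj⟩, hε _, ?_, ?_⟩
          · rw [hd1]
            simp only [hee]
            have := gd_succ t ε hj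
            omega
          · have := (PP_homog c (V j)).neg
            have e3 : (V j).card = ε ⟨j, hj⟩ := hV ⟨j, hj⟩
            rwa [e3] at this
        · left
          rw [if_neg h2])
  -- the linear forms
  set A : Fin (m + n) → Fin 3 → K :=
    Fin.append (fun k => ![(v k).1, (v k).2, 0]) (fun i => ![-(c i).1, -(c i).2, 1]) with hA
  have hfA : (∏ i, ∑ j, C (A i j) * X j : MvPolynomial (Fin 3) K) = gg v * hh c := by
    rw [Fin.prod_univ_add]
    congr 1
    · refine Finset.prod_congr rfl fun k _ => ?_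
      simp [hA, lin, Fin.sum_univ_three]
    · refine Finset.prod_congr rfl fun i _ => ?_
      simp [hA, ell, lin, Fin.sum_univ_three]
      ring
  refine ⟨m + n, A, ?_⟩
  rw [hfA]
  have hmono : ∀ k l : ℕ, k ≤ l → l ≤ s → gd t ε k ≤ gd t ε l := by
    intro k l hkl
    induction l, hkl using Nat.le_induction with
    | base => intro _; exact le_rfl
    | succ l hkl ih =>
      intro hl
      have h1 := gd_succ t ε (k := l) hl
      have h2 := htε ⟨l, hl⟩
      have h3 := ih (by omega)
      omega
  refine ⟨m + n, fun k => d k + 1, fun k => ee k, by omega, hs0, f_homog c v,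
    f_squarefree hcinj hvne hvdet, ?_, ?_, hres, ?_, ?_⟩
  · intro i j hij
    have hij' : (i : ℕ) ≤ j := hij
    have hj := j.2
    simp only
    rcases Nat.eq_zero_or_pos (i : ℕ) with hi | hi
    · rcases Nat.eq_zero_or_pos (j : ℕ) with hj0 | hj0
      · rw [hi, hj0]
      · obtain ⟨k, hk⟩ : ∃ k, (j : ℕ) = k + 1 := ⟨j - 1, by omega⟩
        have h0 := hmono 0 k (by omega) (by omega)
        rw [gd_zero] at h0
        rw [hi, hk, hd1]
        simp only [hd, if_true]
        omega
    · obtain ⟨k, hk⟩ : ∃ k, (j : ℕ) = k + 1 := ⟨j - 1, by omega⟩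
      obtain ⟨l, hl⟩ : ∃ l, (i : ℕ) = l + 1 := ⟨i - 1, by omega⟩
      rw [hk, hl, hd1, hd1]
      have := hmono l k (by omega) (by omega)
      omega
  · intro i j hij
    have hij' : (i : ℕ) ≤ j := hij
    have hj := j.2
    simp only [hee]
    have := hmono i j hij' (by omega)
    omega
  · intro k
    have h1 := gd_succ t ε k.2
    have h2 : d ((k.succ.succ : Fin (s + 2)) : ℕ) = gd t ε (k + 1) + (m - 2) := by
      rw [Fin.val_succ, Fin.val_succ, hd1]
    simp only [h2, hee]
    have h3 : (⟨(k : ℕ), k.2⟩ : Fin s) = k := rfl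
    rw [h3] at h1
    omega
  · have h1 : d ((1 : Fin (s + 2)) : ℕ) = gd t ε 0 + (m - 2) := by
      have : ((1 : Fin (s + 2)) : ℕ) = 0 + 1 := by simp
      rw [this, hd1]
    have h0 : d ((0 : Fin (s + 2)) : ℕ) = n - 1 := by simp [hd]
    simp only [h1, h0, gd_zero]
    omega

end Pool.Agent.Q39.OP
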