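import Pool.Agent.Q39.OP.Link

set_option autoImplicit false

/-!
# The resolution
-/

namespace Pool.Agent.Q39.OP

open MvPolynomial Pool.Agent.Q39.POG

variable {K : Type} [Field K] {n m : ℕ}

/-- the generators -/
noncomputable def gen (c : Fin n → K × K) (p0 p1 : MvPolynomial (Fin 3) K)
    (Q w : ℕ → MvPolynomial (Fin 3) K) : ℕ → Fin 3 → MvPolynomial (Fin 3) K
  | 0 => vT c
  | k + 1 => vD p0 p1 (Q k) (w k)

/-- the relations -/
noncomputable def RR (P Q e' : ℕ → MvPolynomial (Fin 3) K) (j k : ℕ) : MvPolynomial (Fin 3) K :=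
  if k = 0 then -e' j else if k = j + 1 then P j else if k = j + 2 then -Q j else 0

lemma RR_zero (P Q e' : ℕ → MvPolynomial (Fin 3) K) (j : ℕ) : RR P Q e' j 0 = -e' j := by
  simp [RR]

lemma RR_succ (P Q e' : ℕ → MvPolynomial (Fin 3) K) (j i : ℕ) :
    RR P Q e' j (i + 1) = (if j = i then P j else 0) + (if i = j + 1 then -Q j else 0) := by
  unfold RR
  rcases lt_trichotomy i j with h | h | h
  · rw [if_neg (by omega), if_neg (by omega), if_neg (by omega), if_neg (by omega),
      if_neg (by omega), add_zero]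
  · subst h
    rw [if_neg (by omega), if_pos rfl, if_pos rfl, if_neg (by omega), add_zero]
  · by_cases h' : i = j + 1
    · subst h'
      rw [if_neg (by omega), if_neg (by omega), if_pos rfl, if_neg (by omega), if_pos rfl,
        zero_add]
    · rw [if_neg (by omega), if_neg (by omega), if_neg (by omega), if_neg (by omega),
        if_neg (by omega), add_zero]

lemma RR_sum (P Q e' : ℕ → MvPolynomial (Fin 3) K) {s j : ℕ} (hj : j < s)
    (W : ℕ → MvPolynomial (Fin 3) K) :
    ∑ i ∈ Finset.range (s + 1), RR P Q e' j (i + 1) * W i = P j * W j - Q j * W (j + 1) := by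
  have h1 : ∑ i ∈ Finset.range (s + 1), RR P Q e' j (i + 1) * W i =
      ∑ i ∈ Finset.range (s + 1), ((if j = i then P i * W i else 0) +
        (if j + 1 = i then -(Q (i - 1) * W i) else 0)) := by
    refine Finset.sum_congr rfl fun i _ => ?_
    rw [RR_succ]
    by_cases h : j = i
    · subst h
      rw [if_pos rfl, if_neg (by omega), if_pos rfl, if_neg (by omega)]
      ring
    · rw [if_neg h, if_neg h]
      by_cases h' : i = j + 1
      · subst h'
        rw [if_pos rfl, if_pos rfl, Nat.add_sub_cancel]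
        ring
      · rw [if_neg h', if_neg (by omega)]
        ring
  rw [h1, Finset.sum_add_distrib, Finset.sum_ite_eq, Finset.sum_ite_eq,
    if_pos (Finset.mem_range.2 (by omega)), if_pos (Finset.mem_range.2 (by omega)),
    Nat.add_sub_cancel]
  ring

lemma RR_comb (P Q e' : ℕ → MvPolynomial (Fin 3) K) {s i : ℕ} (hi : i ≤ s)
    (b : ℕ → MvPolynomial (Fin 3) K) :
    ∑ j ∈ Finset.range s, b j * RR P Q e' j (i + 1) =
      (if i < s then b i * P i else 0) - (if 0 < i then b (i - 1) * Q (i - 1) else 0) := by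
  have h1 : ∑ j ∈ Finset.range s, b j * RR P Q e' j (i + 1) =
      ∑ j ∈ Finset.range s, ((if i = j then b j * P j else 0) +
        (if i - 1 = j then (if 0 < i then -(b j * Q j) else 0) else 0)) := by
    refine Finset.sum_congr rfl fun j _ => ?_
    rw [RR_succ]
    by_cases h : j = i
    · subst h
      rw [if_pos rfl, if_neg (by omega), if_pos rfl]
      by_cases h0 : j - 1 = j
      · rw [if_pos h0, if_neg (by omega)]
        ring
      · rw [if_neg h0]
        ring
    · rw [if_neg h, if_neg (Ne.symm h)]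
      by_cases h' : i = j + 1
      · subst h'
        rw [if_pos rfl, if_pos (by omega), if_pos (by omega)]
        ring
      · rw [if_neg h']
        by_cases h0 : i - 1 = j
        · rw [if_pos h0, if_neg (by omega)]
          ring
        · rw [if_neg h0]
          ring
  rw [h1, Finset.sum_add_distrib, Finset.sum_ite_eq, Finset.sum_ite_eq]
  simp only [Finset.mem_range]
  by_cases h0 : 0 < i
  · have : i - 1 < s := by omega
    rw [if_pos this, if_pos h0, if_pos h0]
    ring
  · rw [if_neg h0, if_neg h0]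
    simp

section

variable {c : Fin n → K × K} {p0 p1 : MvPolynomial (Fin 3) K} {Q w : ℕ → MvPolynomial (Fin 3) K}
  {s : ℕ}

lemma gen_sum0 (a : ℕ → MvPolynomial (Fin 3) K) :
    (∑ k ∈ Finset.range (s + 2), a k • gen c p0 p1 Q w k) 0 =
      (∑ k ∈ Finset.range (s + 1), a (k + 1) * Q k) * p0 := by
  rw [Finset.sum_range_succ']
  simp only [gen, Pi.add_apply, Finset.sum_apply, Pi.smul_apply, smul_eq_mul, vT, vD,
    Matrix.cons_val_zero, mul_zero, add_zero]
  rw [Finset.sum_mul]
  exact Finset.sum_congr rfl fun k _ => by ring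

lemma gen_sum1 (a : ℕ → MvPolynomial (Fin 3) K) :
    (∑ k ∈ Finset.range (s + 2), a k • gen c p0 p1 Q w k) 1 =
      (∑ k ∈ Finset.range (s + 1), a (k + 1) * Q k) * p1 := by
  rw [Finset.sum_range_succ']
  simp only [gen, Pi.add_apply, Finset.sum_apply, Pi.smul_apply, smul_eq_mul, vT, vD,
    Matrix.cons_val_one, Matrix.cons_val_zero, mul_zero, add_zero]
  rw [Finset.sum_mul]
  exact Finset.sum_congr rfl fun k _ => by ring

lemma gen_sum2 (a : ℕ → MvPolynomial (Fin 3) K) :
    (∑ k ∈ Finset.range (s + 2), a k • gen c p0 p1 Q w k) 2 =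
      (∑ k ∈ Finset.range (s + 1), a (k + 1) * w k) + a 0 * hh c := by
  rw [Finset.sum_range_succ']
  simp only [gen, Pi.add_apply, Finset.sum_apply, Pi.smul_apply, smul_eq_mul, vT, vD]
  rfl

end

/-- The data used below. -/
structure Data (c : Fin n → K × K) (v : Fin m → K × K) (U V : ℕ → Finset (Fin n)) (s : ℕ)
    (p0 p1 : MvPolynomial (Fin 3) K) (w e' : ℕ → MvPolynomial (Fin 3) K) : Prop where
  hc : Function.Injective c
  hg : GenPos c
  hv : ∀ k, v k ≠ 0
  hv2 : ∀ k l, k ≠ l → det2 (v k) (v l) ≠ 0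
  hm : 0 < m
  hs : Sys v p0 p1
  hUU : ∀ i j, i ≠ j → Disjoint (U i) (U j)
  hVV : ∀ i j, i ≠ j → Disjoint (V i) (V j)
  hUV : ∀ i j, Disjoint (U i) (V j)
  adm : ∀ q, Adm c v q ↔ ∀ i j, i ≤ j → j < s → Van c (U i) (V j) q
  sol : ∀ k ≤ s, ∀ i, rho (c i) (w k) =
    rho (c i) (qq (fun j => PP c (U j)) (fun j => PP c (V j)) s k * phi p0 p1 (c i))
  rel : ∀ j < s, PP c (U j) * w j - PP c (V j) * w (j + 1) = e' j * hh c

section

variable {c : Fin n → K × K} {v : Fin m → K × K} {U V : ℕ → Finset (Fin n)} {s : ℕ}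
  {p0 p1 : MvPolynomial (Fin 3) K} {w e' : ℕ → MvPolynomial (Fin 3) K}


lemma gen_isLog (h : Data c v U V s p0 p1 w e') {k : ℕ} (hk : k < s + 2) :
    IsLog c v (gen c p0 p1 (qq (fun j => PP c (U j)) (fun j => PP c (V j)) s) w k) := by
  rw [isLog_iff c h.hv h.hv2 h.hs]
  rcases k with _ | k
  · refine ⟨0, 0, hh c, by simp [gen, vT], by simp [gen, vT], by simp [gen, vT], fun i => ?_⟩
    rw [zero_mul, map_zero, ← ell_dvd_iff]
    exact Finset.dvd_prod_of_mem _ (Finset.mem_univ i)
  · exact ⟨0, (qq (fun j => PP c (U j)) (fun j => PP c (V j)) s) k, w k, by simp [gen, vD], by simp [gen, vD], by simp [gen, vD],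
      h.sol k (by omega)⟩

/-- all logarithmic vector fields -/
lemma gen_span (h : Data c v U V s p0 p1 w e') {θ : Fin 3 → MvPolynomial (Fin 3) K}
    (hθ : IsLog c v θ) : ∃ (e : MvPolynomial (Fin 3) K) (a : ℕ → MvPolynomial (Fin 3) K),
      θ = e • vE + ∑ k ∈ Finset.range (s + 2), a k • gen c p0 p1 (qq (fun j => PP c (U j)) (fun j => PP c (V j)) s) w k := by
  rw [isLog_iff c h.hv h.hv2 h.hs] at hθ
  obtain ⟨e, q, w', e0, e1, e2, hw⟩ := hθ
  obtain ⟨a, ha⟩ := (mem_iff h.hc h.hg U V s h.hUU h.hVV h.hUV q).1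
    ((h.adm q).1 (adm_of_solution c h.hc h.hs hw))
  have hd : hh c ∣ w' - ∑ k ∈ Finset.range (s + 1), a k * w k := by
    apply prod_ell_dvd Finset.univ c h.hc.injOn
    intro i _
    rw [map_sub, hw i, map_sum, ha]
    have : ∀ k ∈ Finset.range (s + 1), rho (c i) (a k * w k) =
        rho (c i) (a k * (qq (fun j => PP c (U j)) (fun j => PP c (V j)) s) k * phi p0 p1 (c i)) := by
      intro k hk
      rw [map_mul, h.sol k (by have := Finset.mem_range.1 hk; omega)]
      simp only [map_mul]
      ring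
    rw [Finset.sum_congr rfl this, Finset.sum_mul, map_sum, sub_self]
  obtain ⟨b, hb⟩ := hd
  refine ⟨e, fun k => if k = 0 then b else a (k - 1), ?_⟩
  have hsimp : ∀ W : ℕ → MvPolynomial (Fin 3) K, ∑ k ∈ Finset.range (s + 1),
      (if k + 1 = 0 then b else a (k + 1 - 1)) * W k = ∑ k ∈ Finset.range (s + 1), a k * W k := by
    intro W
    refine Finset.sum_congr rfl fun k _ => ?_
    rw [if_neg (by omega), Nat.add_sub_cancel]
  funext j
  rw [Pi.add_apply, Pi.smul_apply, smul_eq_mul]
  fin_cases j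
  · simp only [Fin.zero_eta]
    rw [gen_sum0, hsimp, e0, ha]
    rfl
  · simp only [Fin.mk_one]
    rw [gen_sum1, hsimp, e1, ha]
    rfl
  · simp only [Fin.reduceFinMk]
    rw [gen_sum2, hsimp, e2, if_pos rfl]
    have : w' = (∑ k ∈ Finset.range (s + 1), a k * w k) + b * hh c := by
      linear_combination hb
    rw [this]
    rfl

/-- the relations hold -/
lemma gen_rel (h : Data c v U V s p0 p1 w e') {j : ℕ} (hj : j < s) :
    ∑ k ∈ Finset.range (s + 2), RR (fun j => PP c (U j)) (fun j => PP c (V j)) e' j k • gen c p0 p1 (qq (fun j => PP c (U j)) (fun j => PP c (V j)) s) w k = 0 := by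
  have hq : PP c (U j) * (qq (fun j => PP c (U j)) (fun j => PP c (V j)) s) j = PP c (V j) * (qq (fun j => PP c (U j)) (fun j => PP c (V j)) s) (j + 1) := qq_rel (fun j => PP c (U j)) (fun j => PP c (V j)) hj
  funext i
  fin_cases i
  · simp only [Fin.zero_eta, Pi.zero_apply]
    rw [gen_sum0, RR_sum _ _ _ hj]
    linear_combination p0 * hq
  · simp only [Fin.mk_one, Pi.zero_apply]
    rw [gen_sum1, RR_sum _ _ _ hj]
    linear_combination p1 * hq
  · simp only [Fin.reduceFinMk, Pi.zero_apply]
    rw [gen_sum2, RR_sum _ _ _ hj, h.rel j hj, RR_zero]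
    ring

/-- all relations -/
lemma gen_relations (h : Data c v U V s p0 p1 w e') {e : MvPolynomial (Fin 3) K}
    {a : ℕ → MvPolynomial (Fin 3) K}
    (ha : ∑ k ∈ Finset.range (s + 2), a k • gen c p0 p1 (qq (fun j => PP c (U j)) (fun j => PP c (V j)) s) w k = e • vE) :
    ∃ b : ℕ → MvPolynomial (Fin 3) K, ∀ k < s + 2,
      a k = ∑ j ∈ Finset.range s, b j * RR (fun j => PP c (U j)) (fun j => PP c (V j)) e' j k := by
  have f0 := congrFun ha 0
  have f1 := congrFun ha 1
  have f2 := congrFun ha 2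
  rw [gen_sum0, Pi.smul_apply, smul_eq_mul] at f0
  rw [gen_sum1, Pi.smul_apply, smul_eq_mul] at f1
  rw [gen_sum2, Pi.smul_apply, smul_eq_mul] at f2
  have g0 : (vE 0 : MvPolynomial (Fin 3) K) = X 0 := rfl
  have g1 : (vE 1 : MvPolynomial (Fin 3) K) = X 1 := rfl
  rw [g0] at f0
  rw [g1] at f1
  obtain ⟨r0, r1⟩ := rep_unique h.hv h.hs (e := -e)
    (q := ∑ k ∈ Finset.range (s + 1), a (k + 1) * (qq (fun j => PP c (U j)) (fun j => PP c (V j)) s) k)
    (by linear_combination f0) (by linear_combination f1)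
  have he : e = 0 := neg_eq_zero.1 r0
  rw [he, zero_mul] at f2
  obtain ⟨b, hb⟩ := qq_relations (fun j => PP c (U j)) (fun j => PP c (V j)) s (fun j _ => PP_ne_zero _ _)
    (fun i _ j _ _ => (PP_relPrime h.hc (h.hUV i j)).symm) (fun k => a (k + 1)) r1
  have hb' : ∀ i ≤ s, a (i + 1) = ∑ j ∈ Finset.range s, b j * RR (fun j => PP c (U j)) (fun j => PP c (V j)) e' j (i + 1) := by
    intro i hi
    rw [RR_comb _ _ _ hi]
    exact hb i hi
  refine ⟨b, fun k hk => ?_⟩
  rcases k with _ | k
  · have h1 : ∑ k ∈ Finset.range (s + 1), a (k + 1) * w k =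
        (∑ j ∈ Finset.range s, b j * e' j) * hh c := by
      have e1 : ∑ k ∈ Finset.range (s + 1), a (k + 1) * w k =
          ∑ k ∈ Finset.range (s + 1), ∑ j ∈ Finset.range s,
            b j * (RR (fun j => PP c (U j)) (fun j => PP c (V j)) e' j (k + 1) * w k) := by
        refine Finset.sum_congr rfl fun k hk => ?_
        rw [hb' k (by have := Finset.mem_range.1 hk; omega), Finset.sum_mul]
        exact Finset.sum_congr rfl fun j _ => by ring
      rw [e1, Finset.sum_comm, Finset.sum_mul]
      refine Finset.sum_congr rfl fun j hj => ?_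
      rw [← Finset.mul_sum, RR_sum _ _ _ (Finset.mem_range.1 hj), h.rel j (Finset.mem_range.1 hj)]
      ring
    rw [h1] at f2
    have h2 : (a 0 + ∑ j ∈ Finset.range s, b j * e' j) * hh c = 0 := by
      linear_combination f2
    have h3 := (mul_eq_zero.1 h2).resolve_right (hh_ne_zero c)
    simp only [RR_zero, mul_neg, Finset.sum_neg_distrib]
    linear_combination h3
  · exact hb' k (by omega)

/-- the relations are independent -/
lemma RR_indep {b : ℕ → MvPolynomial (Fin 3) K}
    (hb : ∀ k < s + 2, ∑ j ∈ Finset.range s, b j * RR (fun j => PP c (U j)) (fun j => PP c (V j)) e' j k = 0) : ∀ j < s, b j = 0 := by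
  intro j
  induction j with
  | zero =>
    intro hj
    have h1 := hb 1 (by omega)
    rw [show (1 : ℕ) = 0 + 1 from rfl, RR_comb _ _ _ (by omega), if_pos hj,
      if_neg (lt_irrefl 0), sub_zero] at h1
    exact (mul_eq_zero.1 h1).resolve_right (PP_ne_zero _ _)
  | succ j ih =>
    intro hj
    have h1 := hb (j + 1 + 1) (by omega)
    rw [RR_comb _ _ _ (by omega), if_pos hj, if_pos (Nat.succ_pos j), Nat.add_sub_cancel,
      ih (by omega), zero_mul, sub_zero] at h1
    exact (mul_eq_zero.1 h1).resolve_right (PP_ne_zero _ _)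

/-- **The resolution.** -/
theorem resolution [CharZero K] (h : Data c v U V s p0 p1 w e') (d : ℕ → ℕ) (ee : ℕ → ℕ)
    (hd : ∀ k < s + 2, ∀ j, (gen c p0 p1 (qq (fun j => PP c (U j)) (fun j => PP c (V j)) s) w k j).IsHomogeneous (d k + 1))
    (hR : ∀ j < s, ∀ k < s + 2, RR (fun j => PP c (U j)) (fun j => PP c (V j)) e' j k = 0 ∨ ∃ t : ℕ, 1 ≤ t ∧ d k + 1 + t = ee j ∧
      (RR (fun j => PP c (U j)) (fun j => PP c (V j)) e' j k).IsHomogeneous t) :
    HasResolution (gg v * hh c) (fun k : Fin (s + 2) => d k + 1) (fun k : Fin s => ee k) := by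
  classical
  set f := gg v * hh c with hf
  have hN : ((m + n : ℕ) : K) ≠ 0 := by
    rw [Nat.cast_ne_zero]
    have := h.hm
    omega
  have hκ : ∀ k : ℕ, ∃ κ, k < s + 2 → der (gen c p0 p1 (qq (fun j => PP c (U j)) (fun j => PP c (V j)) s) w k) f = κ * f := by
    intro k
    by_cases hk : k < s + 2
    · obtain ⟨κ, h1⟩ := exists_cofactor _ (gen_isLog h hk)
      exact ⟨κ, fun _ => h1⟩
    · exact ⟨0, fun h => absurd h hk⟩
  choose κ hκ using hκ
  set η : ℕ → Fin 3 → MvPolynomial (Fin 3) K := fun k =>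
    gen c p0 p1 (qq (fun j => PP c (U j)) (fun j => PP c (V j)) s) w k + (-(C ((m + n : ℕ) : K)⁻¹ * κ k)) • vE with hη
  have hcast : ((m + n : ℕ) : MvPolynomial (Fin 3) K) = C ((m + n : ℕ) : K) := by
    rw [map_natCast]
  have hinv : C ((m + n : ℕ) : K)⁻¹ * ((m + n : ℕ) : MvPolynomial (Fin 3) K) = 1 := by
    rw [hcast, ← map_mul, inv_mul_cancel₀ hN, map_one]
  have hE : der vE f = ((m + n : ℕ) : MvPolynomial (Fin 3) K) * f := der_vE f (f_homog c v)
  have hη0 : ∀ k < s + 2, der (η k) f = 0 := by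
    intro k hk
    simp only [hη]
    rw [der_add, der_smul, hκ k hk, hE]
    linear_combination (-(κ k * f)) * hinv
  have hsplit : ∀ a : ℕ → MvPolynomial (Fin 3) K, ∑ k ∈ Finset.range (s + 2), a k • η k =
      ∑ k ∈ Finset.range (s + 2), a k • gen c p0 p1 (qq (fun j => PP c (U j)) (fun j => PP c (V j)) s) w k +
        (∑ k ∈ Finset.range (s + 2), a k * (-(C ((m + n : ℕ) : K)⁻¹ * κ k))) • vE := by
    intro a
    simp only [hη, smul_add, Finset.sum_add_distrib, smul_smul]
    rw [Finset.sum_smul]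
  -- multiples of the Euler field that are syzygies vanish
  have hEul : ∀ x : MvPolynomial (Fin 3) K, der (x • vE) f = 0 → x = 0 := by
    intro x hx
    rw [der_smul, hE] at hx
    have h1 : x * f = 0 := by
      linear_combination (C ((m + n : ℕ) : K)⁻¹) * hx - x * f * hinv
    exact (mul_eq_zero.1 h1).resolve_right (f_ne_zero h.hv)
  have hrel0 : ∀ a : ℕ → MvPolynomial (Fin 3) K,
      ∑ k ∈ Finset.range (s + 2), a k • gen c p0 p1 (qq (fun j => PP c (U j)) (fun j => PP c (V j)) s) w k = 0 →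
      ∑ k ∈ Finset.range (s + 2), a k • η k = 0 := by
    intro a ha
    have h1 := hsplit a
    rw [ha, zero_add] at h1
    have h2 : der (∑ k ∈ Finset.range (s + 2), a k • η k) f = 0 := by
      rw [der_sum]
      refine Finset.sum_eq_zero fun k hk => ?_
      rw [der_smul, hη0 k (Finset.mem_range.1 hk), mul_zero]
    rw [h1] at h2
    rw [h1, hEul _ h2, zero_smul]
  refine ⟨fun i => η i, fun k i => RR (fun j => PP c (U j)) (fun j => PP c (V j)) e' k i, ?_, ?_, ?_, ?_, ?_⟩
  · intro i j
    simp only [hη, Pi.add_apply, Pi.smul_apply, smul_eq_mul]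
    have h1 : (κ (i : ℕ)).IsHomogeneous (d i) :=
      cofactor_homog h.hv (hd i i.2) h.hm (hκ i i.2)
    have h2 : (vE j : MvPolynomial (Fin 3) K).IsHomogeneous 1 := by
      fin_cases j <;> exact isHomogeneous_X _ _
    exact (hd i i.2 j).add ((h1.C_mul _).neg.mul h2)
  · apply le_antisymm
    · rw [Submodule.span_le]
      rintro _ ⟨i, rfl⟩
      change ∑ j, η i j * pderiv j f = 0
      rw [← der_eq]
      exact hη0 i i.2
    · intro θ hθ
      have hθ' : der θ f = 0 := by
        rw [der_eq]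
        exact hθ
      obtain ⟨e, a, ha⟩ := gen_span h (isLog_of_zero h.hc h.hv h.hv2 hθ')
      have h1 : θ = ∑ k ∈ Finset.range (s + 2), a k • η k +
          (e - ∑ k ∈ Finset.range (s + 2), a k * (-(C ((m + n : ℕ) : K)⁻¹ * κ k))) • vE := by
        rw [hsplit, ha, sub_smul]
        abel
      have h2 : der ((e - ∑ k ∈ Finset.range (s + 2),
          a k * (-(C ((m + n : ℕ) : K)⁻¹ * κ k))) • vE) f = 0 := by
        have h3 := congrArg (fun x => der x f) h1
        simp only [der_add, der_sum] at h3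
        rw [hθ', Finset.sum_eq_zero, zero_add] at h3
        · exact h3.symm
        · intro k hk
          rw [der_smul, hη0 k (Finset.mem_range.1 hk), mul_zero]
      rw [hEul _ h2, zero_smul, add_zero, Finset.sum_range] at h1
      rw [h1]
      exact Submodule.sum_mem _ fun k _ => Submodule.smul_mem _ _ (Submodule.subset_span ⟨k, rfl⟩)
  · intro k i
    exact hR k k.2 i i.2
  · intro k
    have h1 := hrel0 (fun i => RR (fun j => PP c (U j)) (fun j => PP c (V j)) e' k i) (gen_rel h k.2)
    rw [Finset.sum_range] at h1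
    exact h1
  · intro a ha
    set a' : ℕ → MvPolynomial (Fin 3) K := fun k => if hk : k < s + 2 then a ⟨k, hk⟩ else 0 with ha'
    have haa : ∀ i : Fin (s + 2), a' i = a i := fun i => by simp [ha']
    have h1 : ∑ k ∈ Finset.range (s + 2), a' k • η k = 0 := by
      rw [Finset.sum_range]
      simp only [haa]
      exact ha
    rw [hsplit] at h1
    obtain ⟨b, hb⟩ := gen_relations h (e := -(∑ k ∈ Finset.range (s + 2),
      a' k * (-(C ((m + n : ℕ) : K)⁻¹ * κ k)))) (a := a') (by
        rw [neg_smul]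
        exact eq_neg_of_add_eq_zero_left h1)
    refine ⟨fun j => b j, fun i => ?_, fun b' hb' => ?_⟩
    · rw [← haa, hb i i.2, Finset.sum_range]
    · set b'' : ℕ → MvPolynomial (Fin 3) K := fun j => if hj : j < s then b' ⟨j, hj⟩ else 0
        with hb''
      have hbb : ∀ j : Fin s, b'' j = b' j := fun j => by simp [hb'']
      have h2 := RR_indep (c := c) (U := U) (V := V) (s := s) (e' := e')
        (b := fun j => b j - b'' j) (by
        intro k hk
        have e1 := hb k hk
        have e2 := hb' ⟨k, hk⟩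
        rw [← haa] at e2
        simp only at e2
        simp only [sub_mul, Finset.sum_sub_distrib]
        rw [← e1, e2, Finset.sum_range]
        simp only [hbb, sub_self])
      funext j
      have h3 := h2 j j.2
      simp only [hbb] at h3
      exact (sub_eq_zero.1 h3).symm

end

end Pool.Agent.Q39.OP
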